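import Mathlib

open Finset

namespace Pool.Agent.Results.MP_bdd522_nt.Fails

def T (n : ℕ) (b c : ℤ) : ℤ :=
  ∑ j ∈ range (n / 2 + 1), (n.choose (2 * j) : ℤ) * ((2 * j).choose j : ℤ) * c ^ j * b ^ (n - 2 * j)

def Cg (p m : ℕ) (u v : ℚ) : Prop := (p : ℤ) ^ m ∣ (u - v).num

def W (p : ℕ) (a b c m : ℤ) : ℚ := ∑ k ∈ range p, ((a : ℚ) * k + b) * (T k 2 c : ℚ) ^ 3 / (m : ℚ) ^ k

theorem result : ¬ (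
    (∀ p : ℕ, p.Prime → 3 < p →
      Cg p 2 (jacobiSym 3 p * W p 0 1 3 8) (W p 0 1 3 (-64)) ∧
      Cg p 2 (W p 0 1 3 (-64)) (W p 0 1 9 (-64)) ∧
      Cg p 2 (W p 0 1 9 (-64)) (jacobiSym 3 p * W p 0 1 9 512) ∧
      (∀ x y : ℤ, (p % 24 = 1 ∨ p % 24 = 7) → (p : ℤ) = x ^ 2 + 6 * y ^ 2 →
        Cg p 2 (W p 0 1 3 (-64)) (4 * x ^ 2 - 2 * p)) ∧
      (∀ x y : ℤ, (p % 24 = 5 ∨ p % 24 = 11) → (p : ℤ) = 2 * x ^ 2 + 3 * y ^ 2 →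
        Cg p 2 (W p 0 1 3 (-64)) (2 * p - 8 * x ^ 2)) ∧
      (jacobiSym (-6) p = -1 → Cg p 2 (W p 0 1 3 (-64)) 0)) ∧
    (∀ p : ℕ, p.Prime → 3 < p →
      Cg p 2 (W p 3 2 3 8) (p * (3 * jacobiSym 3 p - 1)) ∧
      Cg p 3 (W p 3 1 3 (-64)) (p * jacobiSym (-2) p)) ∧
    (∀ p : ℕ, p.Prime → 3 < p → jacobiSym (-6) p = 1 →
      Cg p 2 (W p 72 47 9 (-64)) (42 * p) ∧
      Cg p 2 (W p 72 25 9 512) (12 * p * jacobiSym 3 p)) ∧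
    (∀ n : ℕ, 1 ≤ n →
      (2 * n : ℤ) ∣ ∑ k ∈ range n, (3 * k + 2 : ℤ) * 8 ^ (n - 1 - k) * T k 2 3 ^ 3 ∧
      (n : ℤ) ∣ ∑ k ∈ range n, (3 * k + 1 : ℤ) * (-64) ^ (n - 1 - k) * T k 2 3 ^ 3)) := by
  rintro ⟨-, h, -⟩
  have h1 := (h 5 (by norm_num) (by norm_num)).2
  have hj : jacobiSym (-2) 5 = -1 := by norm_num
  have h2 : W 5 3 1 3 (-64) - ((5 : ℕ) : ℚ) * ((-1 : ℤ) : ℚ) = 24229175 / 2097152 := by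
    simp only [W, T, sum_range_succ, range_zero, sum_empty, Nat.choose]
    norm_num
  rw [Cg, hj, h2] at h1
  revert h1
  norm_num

end Pool.Agent.Results.MP_bdd522_nt.Fails
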